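import Pool.Agent.R290.RV.Final

/-!
Every reversible abelian cellular automaton which is randomizing in density is strongly randomizing.
-/

namespace Pool.Agent.Results.MP_b3f678_an.DensityImpliesStrong

open Pool.Agent.R290.RV

theorem result (A : Type) [AddCommGroup A] [Finite A] [TopologicalSpace A] [DiscreteTopology A]
    [MeasurableSpace A] [DiscreteMeasurableSpace A] (F : (ℤ → A) → (ℤ → A)) (hF : AbelianCA F)
    (hb : Function.Bijective F) (hd : RandomizingInDensity F) : StronglyRandomizing F :=
  rev_strong hF hb hd

end Pool.Agent.Results.MP_b3f678_an.DensityImpliesStrong
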